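import Mathlib
import Pool.Agent.V1162.BT.Fin

namespace Pool.Agent.Results.MP_74be22_co.BoundedTransversalQ2

/-- `S` is a `C`-bounded transversal of the family `F`. -/
def IsBoundedTransversal {n : ℕ} (C : ℕ) (F : Finset (Finset (Fin n))) (S : Finset (Fin n)) :
    Prop :=
  ∀ A ∈ F, 1 ≤ (A ∩ S).card ∧ (A ∩ S).card ≤ C

/-- The statement of Q2 is false for `c₁ = 1/8` and every `c₂ ≥ 1`: for every `C` there is a
family of subsets of some `n`-element set, each with more than `√n / 8` elements, any two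
distinct ones sharing at most one element, without a `C`-bounded transversal. -/
theorem result : ∀ c₂ : ℝ, 1 ≤ c₂ → ∀ C : ℕ, ∃ (n : ℕ) (F : Finset (Finset (Fin n))),
    (∀ A ∈ F, (1 / 8 : ℝ) * Real.sqrt (n : ℝ) < (A.card : ℝ)) ∧
    (∀ A ∈ F, ∀ B ∈ F, A ≠ B → ((A ∩ B).card : ℝ) ≤ c₂) ∧
    ¬ ∃ S : Finset (Fin n), IsBoundedTransversal C F S := by
  intro c₂ hc C
  obtain ⟨n, F, h1, h2, h3⟩ := Pool.Agent.V1162.BT.main_fin C
  refine ⟨n, F, h1, fun A hA B hB hne => ?_, h3⟩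
  have h4 : ((A ∩ B).card : ℝ) ≤ 1 := by exact_mod_cast h2 A hA B hB hne
  exact h4.trans hc

end Pool.Agent.Results.MP_74be22_co.BoundedTransversalQ2
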